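import Mathlib
import Pool.Agent.W31.LD.Defs

set_option autoImplicit false

namespace Pool.Agent.W376.LD
open W31LD

/-- The union bound is met for large `B`. -/
theorem numeric (δ : ℝ) (hδ : 0 < δ) : ∃ B1 : ℕ, 1 ≤ B1 ∧ ∀ B : ℕ, B1 ≤ B → ∀ k : ℕ,
    (k : ℝ) < 2400 * ((B : ℝ) + 1) → 0 < k →
    2 * (((2 * (k : ℝ) + 1) ^ ((2 * k) ^ 2 + 1)) ^ B) <
      Real.exp (δ ^ 2 / (2 * ((k : ℝ) / (B : ℝ) ^ 9))) := by
  refine ⟨⌈12000000000000000 / δ ^ 2⌉₊ + 1, by omega, ?_⟩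
  intro B hB k hk hk0
  have hδ2 : 0 < δ ^ 2 := by positivity
  have hB1 : (1 : ℝ) ≤ B := by
    have h : 1 ≤ B := by omega
    exact_mod_cast h
  have hBδ : 12000000000000000 / δ ^ 2 ≤ (B : ℝ) := by
    have h : ⌈12000000000000000 / δ ^ 2⌉₊ ≤ B := by omega
    exact (Nat.le_ceil _).trans (by exact_mod_cast h)
  have hBδ' : 12000000000000000 ≤ (B : ℝ) * δ ^ 2 := (div_le_iff₀ hδ2).mp hBδ
  have hkR : (0 : ℝ) < k := by exact_mod_cast hk0
  have hk1 : (1 : ℝ) ≤ k := by exact_mod_cast hk0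
  have hkB : (k : ℝ) ≤ 4800 * B := by linarith
  -- upper bound
  have hub : 2 * (((2 * (k : ℝ) + 1) ^ ((2 * k) ^ 2 + 1)) ^ B) ≤
      Real.exp (1 + 2 * (k : ℝ) * ((4 * (k : ℝ) ^ 2 + 1) * B)) := by
    have h1 : (2 : ℝ) ≤ Real.exp 1 := by
      have := Real.add_one_le_exp (1 : ℝ)
      linarith
    have h2 : 2 * (k : ℝ) + 1 ≤ Real.exp (2 * k) := Real.add_one_le_exp _
    have h3 : ((2 * (k : ℝ) + 1) ^ ((2 * k) ^ 2 + 1)) ^ B ≤
        ((Real.exp (2 * k)) ^ ((2 * k) ^ 2 + 1)) ^ B := by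
      apply pow_le_pow_left₀ (by positivity)
      exact pow_le_pow_left₀ (by positivity) h2 _
    have h4 : ((Real.exp (2 * k)) ^ ((2 * k) ^ 2 + 1)) ^ B =
        Real.exp (2 * (k : ℝ) * ((4 * (k : ℝ) ^ 2 + 1) * B)) := by
      rw [← pow_mul, ← Real.exp_nat_mul]
      congr 1
      push_cast
      ring
    rw [Real.exp_add, ← h4]
    exact mul_le_mul h1 h3 (by positivity) (by positivity)
  refine lt_of_le_of_lt hub (Real.exp_lt_exp.mpr ?_)
  have hB4 : (1 : ℝ) ≤ (B : ℝ) ^ 4 := one_le_pow₀ hB1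
  have hup : 1 + 2 * (k : ℝ) * ((4 * (k : ℝ) ^ 2 + 1) * B) ≤ 1200000000000 * (B : ℝ) ^ 4 := by
    have h1 : 4 * (k : ℝ) ^ 2 + 1 ≤ 5 * (k : ℝ) ^ 2 := by nlinarith
    have h2 : (k : ℝ) ^ 3 ≤ (4800 * B) ^ 3 := pow_le_pow_left₀ hkR.le hkB 3
    have h3 : 2 * (k : ℝ) * ((4 * (k : ℝ) ^ 2 + 1) * B) ≤ 2 * (k : ℝ) * ((5 * (k : ℝ) ^ 2) * B) :=
      mul_le_mul_of_nonneg_left (mul_le_mul_of_nonneg_right h1 (by positivity)) (by positivity)
    have h4 : 2 * (k : ℝ) * ((5 * (k : ℝ) ^ 2) * B) = 10 * ((k : ℝ) ^ 3 * B) := by ring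
    have h5 : (k : ℝ) ^ 3 * B ≤ (4800 * B) ^ 3 * B :=
      mul_le_mul_of_nonneg_right h2 (by positivity)
    have h6 : (4800 * (B : ℝ)) ^ 3 * B = 110592000000 * (B : ℝ) ^ 4 := by ring
    rw [h6] at h5
    linarith
  have hlow : δ ^ 2 * (B : ℝ) ^ 8 / 9600 ≤ δ ^ 2 / (2 * ((k : ℝ) / (B : ℝ) ^ 9)) := by
    have h1 : δ ^ 2 / (2 * ((k : ℝ) / (B : ℝ) ^ 9)) = δ ^ 2 * (B : ℝ) ^ 9 / (2 * k) := by
      field_simp
    rw [h1, div_le_div_iff₀ (by norm_num) (by positivity)]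
    have h2 : δ ^ 2 * (B : ℝ) ^ 8 * (2 * (k : ℝ)) ≤ δ ^ 2 * (B : ℝ) ^ 8 * (2 * (4800 * B)) :=
      mul_le_mul_of_nonneg_left (by linarith) (by positivity)
    calc δ ^ 2 * (B : ℝ) ^ 8 * (2 * (k : ℝ)) ≤ δ ^ 2 * (B : ℝ) ^ 8 * (2 * (4800 * B)) := h2
      _ = δ ^ 2 * (B : ℝ) ^ 9 * 9600 := by ring
  refine lt_of_lt_of_le ?_ hlow
  refine lt_of_le_of_lt hup ?_
  have h7 : (B : ℝ) * δ ^ 2 ≤ (B : ℝ) ^ 4 * δ ^ 2 := by
    refine mul_le_mul_of_nonneg_right ?_ hδ2.le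
    have h8 : (B : ℝ) ^ 1 ≤ (B : ℝ) ^ 4 := pow_le_pow_right₀ hB1 (by norm_num)
    simpa using h8
  have h9 : 12000000000000000 * (B : ℝ) ^ 4 ≤ ((B : ℝ) ^ 4 * δ ^ 2) * (B : ℝ) ^ 4 :=
    mul_le_mul_of_nonneg_right (hBδ'.trans h7) (by positivity)
  have h10 : ((B : ℝ) ^ 4 * δ ^ 2) * (B : ℝ) ^ 4 = δ ^ 2 * (B : ℝ) ^ 8 := by ring
  rw [h10] at h9
  rw [lt_div_iff₀ (by norm_num)]
  have h11 : (0 : ℝ) < (B : ℝ) ^ 4 := by positivity
  nlinarith

/-- The anticoncentration function at `2 k`. -/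
theorem gg_bound (B k : ℕ) (hB : 1 ≤ B) (hk : 2400 * (B : ℝ) ≤ k) :
    gg B B (2 * k) * 2 ^ (2 * k) ≤ (k : ℝ) / (B : ℝ) ^ 9 * (Nat.choose (2 * k) k : ℕ) := by
  have hBR : (1 : ℝ) ≤ B := by exact_mod_cast hB
  have hkR : (0 : ℝ) < k := by linarith
  have hk0 : 0 < k := by exact_mod_cast hkR
  have hg : gg B B (2 * k) ≤ 1 / (2 * (B : ℝ) ^ 9) := by
    unfold gg
    rw [if_neg (by omega)]
    have h1 : 9 * Real.log B ≤ mu B B * (((2 * k : ℕ) : ℝ) - 2) := by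
      unfold mu
      have hlog : 0 ≤ Real.log B := Real.log_nonneg hBR
      have h2 : Real.log B / (240 * ((B : ℝ) + B)) * (((2 * k : ℕ) : ℝ) - 2) =
          Real.log B * ((((2 * k : ℕ) : ℝ) - 2) / (240 * ((B : ℝ) + B))) := by ring
      rw [h2, mul_comm 9]
      refine mul_le_mul_of_nonneg_left ?_ hlog
      rw [le_div_iff₀ (by positivity)]
      push_cast
      linarith
    have h3 : Real.exp (-(mu B B * (((2 * k : ℕ) : ℝ) - 2))) ≤ Real.exp (-(9 * Real.log B)) :=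
      Real.exp_le_exp.mpr (neg_le_neg h1)
    have h4 : Real.exp (-(9 * Real.log B)) = 1 / (B : ℝ) ^ 9 := by
      rw [Real.exp_neg]
      have h5 : (9 : ℝ) * Real.log B = ((9 : ℕ) : ℝ) * Real.log B := by norm_num
      rw [h5, Real.exp_nat_mul, Real.exp_log (by linarith), one_div]
    rw [h4] at h3
    calc 1 / 2 * Real.exp (-(mu B B * (((2 * k : ℕ) : ℝ) - 2))) ≤ 1 / 2 * (1 / (B : ℝ) ^ 9) := by
          linarith
      _ = 1 / (2 * (B : ℝ) ^ 9) := by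
          field_simp
  have h4k : (4 : ℝ) ^ k ≤ 2 * k * (Nat.choose (2 * k) k : ℕ) := by
    have h5 := Nat.four_pow_le_two_mul_self_mul_centralBinom k hk0
    unfold Nat.centralBinom at h5
    exact_mod_cast h5
  have h6 : (2 : ℝ) ^ (2 * k) = 4 ^ k := by
    rw [pow_mul]
    norm_num
  rw [h6]
  calc gg B B (2 * k) * 4 ^ k ≤ 1 / (2 * (B : ℝ) ^ 9) * 4 ^ k :=
        mul_le_mul_of_nonneg_right hg (by positivity)
    _ ≤ 1 / (2 * (B : ℝ) ^ 9) * (2 * k * (Nat.choose (2 * k) k : ℕ)) :=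
        mul_le_mul_of_nonneg_left h4k (by positivity)
    _ = (k : ℝ) / (B : ℝ) ^ 9 * (Nat.choose (2 * k) k : ℕ) := by
        field_simp

theorem done : W31LD.T_Final := by
  rintro ⟨B0, hAC⟩ hPat hProb
  refine ⟨1 / 2400, by norm_num, fun δ hδ => ?_⟩
  obtain ⟨B1, hB1, hnum⟩ := numeric δ hδ
  refine ⟨2400 * (B0 + B1), fun k hk N hN => ?_⟩
  generalize hBdef : ⌊(1 / 2400 : ℝ) * (k : ℝ)⌋₊ = B at hN
  have hkM : (2400 : ℝ) * ((B0 : ℝ) + B1) ≤ k := by exact_mod_cast hk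
  have hBge : B0 + B1 ≤ B := by
    rw [← hBdef]
    refine Nat.le_floor ?_
    push_cast
    linarith
  have hBle : 2400 * (B : ℝ) ≤ k := by
    have h1 : (B : ℝ) ≤ (1 / 2400 : ℝ) * (k : ℝ) := by
      rw [← hBdef]
      exact Nat.floor_le (by positivity)
    linarith
  have hBlt : (k : ℝ) < 2400 * ((B : ℝ) + 1) := by
    have h1 : (1 / 2400 : ℝ) * (k : ℝ) < (B : ℝ) + 1 := by
      rw [← hBdef]
      exact Nat.lt_floor_add_one _
    linarith
  have hB : 1 ≤ B := by omega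
  have hBR : (1 : ℝ) ≤ B := by exact_mod_cast hB
  have hkR : (0 : ℝ) < k := by linarith
  have hk0 : 0 < k := by exact_mod_cast hkR
  obtain ⟨Φ₀, hΦc, hΦ⟩ := hPat (2 * k) B
  classical
  let J : Finset (Finset (Fin (2 * k))) := Finset.powersetCard k Finset.univ
  have hJ : J.card = Nat.choose (2 * k) k := by
    change (Finset.powersetCard k (Finset.univ : Finset (Fin (2 * k)))).card = _
    rw [Finset.card_powersetCard, Finset.card_univ, Fintype.card_fin]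
  let p : ℝ := (k : ℝ) / (B : ℝ) ^ 9
  have hp : 0 < p := by positivity
  let Φ := Φ₀.filter fun φ => ∀ τ : ℕ,
    (({j ∈ J | φ j = τ} : Finset (Finset (Fin (2 * k)))).card : ℝ) ≤ p * J.card
  have hcard : 2 * (Φ.card : ℝ) < Real.exp (δ ^ 2 / (2 * p)) := by
    refine lt_of_le_of_lt ?_ (hnum B (by omega) k hBlt hk0)
    have h1 : (Φ.card : ℝ) ≤ (((2 * k + 1) ^ ((2 * k) ^ 2 + 1)) ^ B : ℕ) := by
      exact_mod_cast (Finset.card_filter_le _ _).trans hΦc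
    push_cast at h1
    linarith
  obtain ⟨f, hf⟩ := hProb _ J Φ p δ hp hδ (fun φ hφ => (Finset.mem_filter.mp hφ).2) hcard
  refine ⟨fun T => f (clev B (T.map Fin.valEmbedding)), fun S hS => ?_⟩
  -- the image of `S`
  have hS' : (S.map Fin.valEmbedding).card = 2 * k := by rw [Finset.card_map, hS]
  generalize hSdef : S.map Fin.valEmbedding = S' at hS'
  have hSr : S' ⊆ Finset.range ((fun n : ℕ => 2 ^ n)^[B] 1) := by
    intro x hx
    rw [← hSdef, Finset.mem_map] at hx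
    obtain ⟨y, _, rfl⟩ := hx
    rw [Finset.mem_range]
    exact lt_of_lt_of_le y.isLt hN
  have hφ := hΦ S' hS'
  let g : Fin (2 * k) ↪ ℕ := (S'.orderEmbOfFin hS').toEmbedding
  have hgm : (Finset.univ : Finset (Fin (2 * k))).map g = S' := S'.map_orderEmbOfFin_univ hS'
  have hmem : (fun I : Finset (Fin (2 * k)) => clev B (I.map g)) ∈ Φ := by
    refine Finset.mem_filter.mpr ⟨hφ, fun τ => ?_⟩
    have h1 := hAC B (by omega) S' ∅ (Finset.disjoint_empty_right _) hSr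
      (Finset.empty_subset _) τ
    rw [hS'] at h1
    have h2 : (({j ∈ J | clev B (j.map g) = τ} : Finset (Finset (Fin (2 * k)))).card : ℝ) ≤
        ((S'.powerset.filter (fun J => clev B (∅ ∪ J) = τ)).card : ℝ) := by
      have h3 : ({j ∈ J | clev B (j.map g) = τ} : Finset (Finset (Fin (2 * k)))).card ≤
          (S'.powerset.filter (fun J => clev B (∅ ∪ J) = τ)).card := by
        refine Finset.card_le_card_of_injOn (fun I => I.map g) ?_ ?_
        · intro I hI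
          have hI' := (Finset.mem_filter.mp (Finset.mem_coe.mp hI)).2
          refine Finset.mem_coe.mpr (Finset.mem_filter.mpr ⟨?_, ?_⟩)
          · rw [Finset.mem_powerset, ← hgm]
            exact Finset.map_subset_map.mpr (Finset.subset_univ I)
          · rw [Finset.empty_union]
            exact hI'
        · intro I _ I' _ h
          exact Finset.map_injective g h
      exact_mod_cast h3
    rw [hJ]
    exact (h2.trans h1).trans (gg_bound B k hB hBle)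
  have hmain := hf _ hmem
  rw [hJ] at hmain
  have e1 : ∑ T ∈ S.powersetCard k,
      (if f (clev B (T.map Fin.valEmbedding)) = true then (1 : ℝ) else -1) =
      ∑ T ∈ S'.powersetCard k, (if f (clev B T) = true then (1 : ℝ) else -1) := by
    rw [← hSdef, Finset.powersetCard_map, Finset.sum_map]
    rfl
  have e2 : ∑ T ∈ S'.powersetCard k, (if f (clev B T) = true then (1 : ℝ) else -1) =
      ∑ I ∈ J, (if f (clev B (I.map g)) = true then (1 : ℝ) else -1) := by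
    conv_lhs => rw [← hgm]
    rw [Finset.powersetCard_map, Finset.sum_map]
    rfl
  rw [e1, e2]
  exact hmain

end Pool.Agent.W376.LD
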